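import Pool.Agent.J4H96.DPNon
import Pool.Agent.J4H96.DPTabs

/-! The set of rank functions of 1-differential posets does not have the Interval Property. -/

set_option autoImplicit false

namespace Pool.Agent.Results.MP_936fee_co.IntervalPropertyFails

open Pool.Agent.J4H96.DP Pool.Agent.J4H96.DPDef

lemma tail_eq : ∀ m : ℕ, e tabB (m + 12) = e tabA (m + 12) ∧ e tabB (m + 13) = e tabA (m + 13)
  | 0 => by decide +kernel
  | m + 1 => by
    obtain ⟨h1, h2⟩ := tail_eq m
    refine ⟨h2, ?_⟩
    have hB : e tabB (m + 12 + 2) = e tabB (m + 12) + e tabB (m + 12 + 1) :=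
      e_rec (by rw [lenB]; omega)
    have hA : e tabA (m + 12 + 2) = e tabA (m + 12) + e tabA (m + 12 + 1) :=
      e_rec (by rw [lenA]; omega)
    have h3 : m + 1 + 13 = m + 12 + 2 := by omega
    rw [h3, hB, hA, h1]
    exact congrArg _ h2

lemma low_eq : ∀ j < 11, e tabB j = e tabA j := by decide +kernel

lemma eq_off (j : ℕ) (hj : j ≠ 11) : e tabB j = e tabA j := by
  rcases lt_or_gt_of_ne hj with h | h
  · exact low_eq j h
  · obtain ⟨m, rfl⟩ : ∃ m, j = m + 12 := ⟨j - 12, by omega⟩
    exact (tail_eq m).1

lemma at_eleven : e tabB 11 = e tabA 11 + 2 := by decide +kernel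

lemma bad_eq : ∀ n < 12, (if n = 11 then e tabA 11 + 1 else e tabA n) = bad.getD n 0 := by
  decide +kernel

/-- The set of all rank functions of `1`-differential posets does not have the Interval
Property. -/
theorem result : ¬ IntervalProperty (RankFunctions 1) := by
  intro h
  obtain ⟨P, _, _, _, ρ, hd, hr⟩ := h (e tabA) (e_mem okA) (e tabB) (e_mem okB) 11 2
    (by norm_num) eq_off at_eleven 1 (by norm_num)
  apply no_bad hd
  intro n hn
  rw [hr n, ← bad_eq n hn]
  by_cases h11 : n = 11
  · subst h11
    simp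
  · rw [Function.update_of_ne h11, if_neg h11]

end Pool.Agent.Results.MP_936fee_co.IntervalPropertyFails
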